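import Mathlib.NumberTheory.PrimeCounting
import Mathlib.Analysis.SpecificLimits.Normed
import Mathlib.Tactic

/-!
# The inequality `π(xy)² ≤ π(x²) π(y²)` fails for arbitrarily large arguments

Taking `y = x + 2` we have `π(x(x+2)) = π((x+1)²)`, because `(x+1)²` is not prime.
So the inequality would make the sequence `π(x²)` log-convex from some point on; being
non-constant it would then grow exponentially, while `π(x²) ≤ x²`.
-/

namespace Pool.Agent.Results.MP_93d35c_nt.FailsAtShiftTwo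

open Nat Filter

/-- `π((x+1)²) = π(x(x+2))`, since `(x+1)²` is not a prime. -/
lemma pi_sq_succ (x : ℕ) :
    Nat.primeCounting (x * (x + 2)) = Nat.primeCounting ((x + 1) ^ 2) := by
  have h : (x + 1) ^ 2 = x * (x + 2) + 1 := by ring
  have hn : ¬ Nat.Prime (x * (x + 2) + 1) := by
    rw [← h]
    exact Nat.Prime.not_prime_pow le_rfl
  rw [h]
  change Nat.count Nat.Prime (x * (x + 2) + 1) = Nat.count Nat.Prime (x * (x + 2) + 1 + 1)
  rw [Nat.count_succ Nat.Prime (x * (x + 2) + 1), if_neg hn, add_zero]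

lemma pi_le (n : ℕ) : Nat.primeCounting n ≤ n := by
  have h0 : Nat.primeCounting n = Nat.count Nat.Prime (n + 1) := rfl
  rw [h0, Nat.count_succ']
  have : ¬ Nat.Prime 0 := Nat.not_prime_zero
  simp only [this, if_false, add_zero]
  exact Nat.count_le _

lemma exists_large (B : ℕ) : ∃ x : ℕ, B < Nat.primeCounting (x ^ 2) := by
  have h := Nat.tendsto_primeCounting.eventually_gt_atTop B
  obtain ⟨N, hN⟩ := h.exists_forall_of_atTop
  refine ⟨N, hN _ ?_⟩
  nlinarith [Nat.zero_le N, Nat.le_self_pow (two_ne_zero) N]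

theorem result :
    ∀ n₀ : ℕ, ∃ x : ℕ, n₀ ≤ x ∧
      Nat.primeCounting (x ^ 2) * Nat.primeCounting ((x + 2) ^ 2)
        < Nat.primeCounting (x * (x + 2)) ^ 2 := by
  intro n₀
  by_contra hcon
  push Not at hcon
  set s : ℕ → ℕ := fun x => Nat.primeCounting (x ^ 2) with hs
  have hconv : ∀ x, n₀ ≤ x → s (x + 1) ^ 2 ≤ s x * s (x + 2) := by
    intro x hx
    have := hcon x hx
    rwa [pi_sq_succ] at this
  have hmono : Monotone s := by
    intro a b hab
    exact Nat.monotone_primeCounting (Nat.pow_le_pow_left hab 2)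
  have hpos : ∀ x, 2 ≤ x → 0 < s x := by
    intro x hx
    have h1 : s 2 ≤ s x := hmono hx
    have h2 : 0 < s 2 := by
      have : Nat.primeCounting 2 ≤ Nat.primeCounting (2 ^ 2) :=
        Nat.monotone_primeCounting (by norm_num)
      have h3 : Nat.primeCounting 2 = 1 := by decide
      simp only [hs]
      omega
    omega
  -- a strict increase beyond `max n₀ 2`
  obtain ⟨x₁, hx₁, hinc⟩ : ∃ x₁, max n₀ 2 ≤ x₁ ∧ s x₁ < s (x₁ + 1) := by
    by_contra hno
    push Not at hno
    have hconst : ∀ k, s (max n₀ 2 + k) ≤ s (max n₀ 2) := by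
      intro k
      induction k with
      | zero => simp
      | succ k ih => exact (hno (max n₀ 2 + k) (by omega)).trans ih
    obtain ⟨x, hx⟩ := exists_large (s (max n₀ 2))
    have h1 : s x ≤ s (max n₀ 2 + x) := hmono (by omega)
    have h2 := hconst x
    simp only [hs] at hx h1 h2
    omega
  have hx0 : n₀ ≤ x₁ := le_trans (le_max_left _ _) hx₁
  have hx2 : 2 ≤ x₁ := le_trans (le_max_right _ _) hx₁
  have hstep : ∀ k, s (x₁ + 1) * s (x₁ + k) ≤ s (x₁ + k + 1) * s x₁ := by
    intro k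
    induction k with
    | zero => simp [mul_comm]
    | succ k ih =>
      have hc := hconv (x₁ + k) (by omega)
      have hp := hpos (x₁ + k) (by omega)
      have : s (x₁ + k) * (s (x₁ + 1) * s (x₁ + k + 1))
          ≤ s (x₁ + k) * (s (x₁ + k + 2) * s x₁) := by
        calc s (x₁ + k) * (s (x₁ + 1) * s (x₁ + k + 1))
            = (s (x₁ + 1) * s (x₁ + k)) * s (x₁ + k + 1) := by ring
          _ ≤ (s (x₁ + k + 1) * s x₁) * s (x₁ + k + 1) := Nat.mul_le_mul_right _ ih
          _ = s (x₁ + k + 1) ^ 2 * s x₁ := by ring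
          _ ≤ (s (x₁ + k) * s (x₁ + k + 2)) * s x₁ := Nat.mul_le_mul_right _ hc
          _ = _ := by ring
      exact Nat.le_of_mul_le_mul_left this hp
  -- exponential growth
  set ρ : ℝ := (s (x₁ + 1) : ℝ) / (s x₁ : ℝ) with hρ
  have hs1 : (0 : ℝ) < s x₁ := by exact_mod_cast hpos x₁ hx2
  have hρ1 : 1 < ρ := by
    rw [hρ, one_lt_div hs1]
    exact_mod_cast hinc
  have hgrow : ∀ k, ρ ^ k ≤ (s (x₁ + k) : ℝ) := by
    intro k
    induction k with
    | zero =>
      simp only [pow_zero, add_zero]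
      exact_mod_cast hpos x₁ hx2
    | succ k ih =>
      have h1 : (s (x₁ + 1) : ℝ) * s (x₁ + k) ≤ s (x₁ + k + 1) * s x₁ := by
        exact_mod_cast hstep k
      have h2 : ρ * s (x₁ + k) ≤ s (x₁ + k + 1) := by
        rw [hρ, div_mul_eq_mul_div, div_le_iff₀ hs1]
        exact h1
      calc ρ ^ (k + 1) = ρ * ρ ^ k := by ring
        _ ≤ ρ * s (x₁ + k) := by
            apply mul_le_mul_of_nonneg_left ih
            linarith
        _ ≤ _ := h2
  have hub : ∀ k, ρ ^ k ≤ ((x₁ + k : ℕ) : ℝ) ^ 2 := by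
    intro k
    refine (hgrow k).trans ?_
    have := pi_le ((x₁ + k) ^ 2)
    exact_mod_cast this
  -- contradiction with `k ^ 2 / ρ ^ k → 0`
  have hlim := tendsto_pow_const_div_const_pow_of_one_lt 2 hρ1
  have hlim' : Tendsto (fun k : ℕ => ((k + x₁ : ℕ) : ℝ) ^ 2 / ρ ^ (k + x₁)) atTop (nhds 0) :=
    hlim.comp (tendsto_add_atTop_nat x₁)
  have hge : ∀ k : ℕ, 1 / ρ ^ x₁ ≤ ((k + x₁ : ℕ) : ℝ) ^ 2 / ρ ^ (k + x₁) := by
    intro k
    have hk := hub k
    have hp1 : 0 < ρ ^ x₁ := by positivity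
    have hp2 : 0 < ρ ^ (k + x₁) := by positivity
    rw [div_le_div_iff₀ hp1 hp2, one_mul, pow_add]
    have : ((k + x₁ : ℕ) : ℝ) = ((x₁ + k : ℕ) : ℝ) := by push_cast; ring
    rw [this]
    exact mul_le_mul_of_nonneg_right hk hp1.le
  have h0 : 1 / ρ ^ x₁ ≤ 0 := ge_of_tendsto' hlim' hge
  have : 0 < 1 / ρ ^ x₁ := by positivity
  linarith

end Pool.Agent.Results.MP_93d35c_nt.FailsAtShiftTwo
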